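import Pool.Agent.H75.GLV.Ind

/-!
# Closed paths in simply connected complexes of triangles (Gauss-Bonnet inequality)

`gauss`: let `X` be a simply connected complex with triangular chambers, with girths of the links at least `2 m p` and with real
angles `1 / m p ≤ θ p ≤ 1 / 2` which have sum one in every chamber. If `p 0, h 0, p 1, h 1, …, p n = p 0` is a closed path of
points and hyperedges such that consecutive hyperedges are different and not in a common chamber, then
`∑ 2 θ (p i) ≤ n - 2`. There is no condition on the path otherwise. The proof does not use disc diagrams: the levels of the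
complex with a root chamber at `h 0` give angles `t` and directions `d` (`exists_gd`), and `d` is one-Lipschitz with respect to
the apex angles `1 - t e p - t e q` of the hyperedges `e = (p q)`.
-/

set_option autoImplicit false

namespace Pool.Agent.H75.GLV

open Pool.Agent.H54.CX Pool.Agent.H52.T2

variable {W : Type} {X : Cpx W} {kd : W → ℕ} {m : W → ℕ} {θ : W → ℝ}

theorem gauss (hX : LX X kd m) (hsc : X.SC) (hT : TriX X kd m θ) {n : ℕ} (hn : 0 < n) (p h : ℕ → W)
    (hp : ∀ i, i ≤ n → kd (p i) = 2) (hh : ∀ i, i ≤ n → kd (h i) = 1) (e1 : ∀ i, i ≤ n → X.Edge (h i) (p i))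
    (e2 : ∀ i, i < n → X.Edge (h i) (p (i + 1))) (hne : ∀ i, i < n → p i ≠ p (i + 1)) (hpn : p n = p 0) (hhn : h n = h 0)
    (hd : ∀ i, i < n → h i ≠ h (i + 1)) (hna : ∀ i, i < n → ¬ (HGr X kd (p (i + 1))).Adj (h i) (h (i + 1))) :
    ∑ i ∈ Finset.range n, 2 * θ (p i) ≤ n - 2 := by
  obtain ⟨o, ho, ho1⟩ := hX.cell (h 0) (p 0) (hh 0 (Nat.zero_le _)) (hp 0 (Nat.zero_le _)) (e1 0 (Nat.zero_le _))
  have h0 : T3 X kd o (h 0) (p 0) := hX.t3 ho (hh 0 (Nat.zero_le _)) (hp 0 (Nat.zero_le _)) ho1 (e1 0 (Nat.zero_le _))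
  have h1 : T3 X kd o (h 0) (p 1) := hX.t3 ho (hh 0 (Nat.zero_le _)) (hp 1 hn) ho1 (e2 0 hn)
  obtain ⟨lv, dp, ds, an, hL⟩ := exists_lv2 hX hsc ho
  -- a bound for the levels
  obtain ⟨N, hN⟩ : ∃ N, ∀ i, i ≤ n → lv (h i) < N := by
    refine ⟨∑ i ∈ Finset.range (n + 1), (lv (h i) + 1), fun i hi => ?_⟩
    have := Finset.single_le_sum (f := fun i => lv (h i) + 1) (fun i _ => Nat.zero_le _)
      (show i ∈ Finset.range (n + 1) from Finset.mem_range.2 (Nat.lt_succ_of_le hi))
    omega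
  obtain ⟨t, d, hG⟩ := exists_gd hX hT hL h0 h1 (hne 0 hn) N
  have hlo : lv o < N := by
    have := hL.lev_asc o (h 0) h0.1 h0.2.1 h0.ge (no_ds hX hL _)
    have := hN 0 (Nat.zero_le _)
    omega
  obtain ⟨r1, r2, r3⟩ := hG.rt hlo
  -- the vertices
  have hv : ∀ i, i < n → 2 * θ (p (i + 1)) ≤ t (h i) (p (i + 1)) + t (h (i + 1)) (p (i + 1)) := fun i hi =>
    vtx hX hT hL hG (hh i hi.le) (hh (i + 1) hi) (hp (i + 1) hi) (e2 i hi) (e1 (i + 1) hi) (hd i hi) (hna i hi)
      (hN i hi.le) (hN (i + 1) hi)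
  -- the hyperedges
  have hl : ∀ i, i < n → |d (p (i + 1)) - d (p i)| ≤ 1 - t (h i) (p i) - t (h i) (p (i + 1)) := fun i hi => by
    rw [abs_sub_comm]
    exact hG.lip (h i) (p i) (p (i + 1)) (hh i hi.le) (hp i hi.le) (hp (i + 1) hi) (e1 i hi.le) (e2 i hi) (hne i hi)
      (hN i hi.le)
  obtain ⟨k, rfl⟩ : ∃ k, n = k + 1 := ⟨n - 1, by omega⟩
  -- the directions along the path `p 1, …, p n`
  have tel : ∀ j, j ≤ k → |d (p (j + 1)) - d (p 1)| ≤ ∑ i ∈ Finset.range j,
      (1 - t (h (i + 1)) (p (i + 1)) - t (h (i + 1)) (p (i + 2))) := by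
    intro j
    induction j with
    | zero =>
      intro _
      simp
    | succ j ih =>
      intro hj
      rw [Finset.sum_range_succ]
      have h2 := ih (by omega)
      have h3 := hl (j + 1) (by omega)
      have h4 := abs_sub_le (d (p (j + 2))) (d (p (j + 1))) (d (p 1))
      linarith
  have h5 := tel k le_rfl
  rw [hpn, r2, r3] at h5
  have h6 : |(0 : ℝ) - 1| = 1 := by norm_num
  rw [h6] at h5
  have z1 : t (h 0) (p 0) = 0 := r1 (p 0) h0.2.2.1 h0.ep
  have z2 : t (h 0) (p 1) = 0 := r1 (p 1) h1.2.2.1 h1.ep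
  -- the sums
  have s1 : ∑ i ∈ Finset.range (k + 1), 2 * θ (p i) = ∑ i ∈ Finset.range (k + 1), 2 * θ (p (i + 1)) := by
    rw [Finset.sum_range_succ', Finset.sum_range_succ (fun i => 2 * θ (p (i + 1))), hpn]
  have s2 : ∑ i ∈ Finset.range (k + 1), 2 * θ (p (i + 1)) ≤
      ∑ i ∈ Finset.range (k + 1), (t (h i) (p (i + 1)) + t (h (i + 1)) (p (i + 1))) :=
    Finset.sum_le_sum fun i hi => hv i (Finset.mem_range.1 hi)
  have s3 : ∑ i ∈ Finset.range (k + 1), t (h (i + 1)) (p (i + 1)) = ∑ i ∈ Finset.range (k + 1), t (h i) (p i) := by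
    rw [Finset.sum_range_succ, hhn, hpn, ← Finset.sum_range_succ' (fun i => t (h i) (p i))]
  rw [Finset.sum_add_distrib, s3] at s2
  rw [Finset.sum_sub_distrib, Finset.sum_sub_distrib, Finset.sum_const, Finset.card_range, nsmul_eq_mul, mul_one] at h5
  have s4 : ∑ i ∈ Finset.range (k + 1), t (h i) (p (i + 1)) =
      ∑ i ∈ Finset.range k, t (h (i + 1)) (p (i + 2)) + t (h 0) (p 1) := Finset.sum_range_succ' _ _
  have s5 : ∑ i ∈ Finset.range (k + 1), t (h i) (p i) =
      ∑ i ∈ Finset.range k, t (h (i + 1)) (p (i + 1)) + t (h 0) (p 0) := Finset.sum_range_succ' _ _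
  rw [s4, s5, z1, z2] at s2
  rw [s1]
  push_cast
  linarith

end Pool.Agent.H75.GLV
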