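import Pool.Agent.H75.GLV.Def

/-!
# [H75 GLV CH] the angles along the branches

`chC`: the gate of the point `p` is the chamber `g₀`: a hyperedge `e` of depth `k` which is not folded has the angle
`min 1 (t f p + k θ)`, `f` the first hyperedge of the branch; `chH`: the gate is the folded hyperedge `v`: `min 1 (k θ)`.
`far_sum`: the two descending hyperedges of a far chamber.
-/

set_option autoImplicit false

namespace Pool.Agent.H75.GLV

open Pool.Agent.H54.CX Pool.Agent.H52.T2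

variable {W : Type} {X : Cpx W} {kd : W → ℕ} {m : W → ℕ} {lv : W → ℕ} {dp : W → W → ℕ} {ds : W → W → Prop}
  {an : W → W → ℝ} {θ : W → ℝ} {o h₀ p₀ p₁ : W} {n : ℕ} {t : W → W → ℝ} {d : W → ℝ}

private theorem mm {a b c : ℝ} (hc : 0 ≤ c) : min 1 (min 1 (a + b) + c) = min 1 (a + (b + c)) := by
  rcases le_total 1 (a + b) with h | h
  · rw [min_eq_left h, min_eq_left (by linarith), min_eq_left (by linarith)]
  · rw [min_eq_right h, add_assoc]

theorem TriX.th_pos (hX : LX X kd m) (hT : TriX X kd m θ) {p : W} (hp : kd p = 2) : 0 < θ p :=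
  lt_of_lt_of_le (hX.inv_pos hp) (hT.lo p hp)

theorem TriX.th_m (hX : LX X kd m) (hT : TriX X kd m θ) {p : W} (hp : kd p = 2) : 1 ≤ m p * θ p := by
  have h1 := hT.lo p hp
  have h2 := hX.m_pos hp
  rw [div_le_iff₀ h2] at h1
  linarith

/-- the branch of a hyperedge which is not folded, chamber gate -/
theorem chC (hX : LX X kd m) (hT : TriX X kd m θ) (hL : Lv2 X kd m lv dp ds an o)
    (hG : Gd X kd m lv dp ds θ o h₀ p₀ p₁ n t d) {g₀ p : W} (hg : kd g₀ = 0) (hp : kd p = 2)
    (h0 : X.Edge g₀ p) (hd : dp g₀ p = 0) : ∀ (k : ℕ) (e : W), dp e p = k → kd e = 1 → X.Edge e p →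
    ¬ Fd X kd ds e → lv e < n → ∃ f, T3 X kd g₀ f p ∧ (∃ w : (HGr X kd p).Walk e f, w.length = k) ∧
      t e p = min 1 (t f p + k * θ p) ∧ ∀ c, T3 X kd c e p → ds c e → Ps X kd p g₀ (k + 1) f e c := by
  intro k
  induction k with
  | zero =>
    intro e hk he h1 hnf hlv
    obtain ⟨g, hg', h3, h4⟩ := Lv2.gate_of he hnf
    have t' : T3 X kd g e p := hX.t3 hg' he hp h3 h1
    have h5 := hL.dp_asc t' h4
    have h6 : g = g₀ := hL.cg_u g g₀ p hg' hg hp t'.gp h0 (by omega) hd
    subst h6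
    refine ⟨e, t', ⟨SimpleGraph.Walk.nil, rfl⟩, ?_, ?_⟩
    · rw [Nat.cast_zero, zero_mul, add_zero, min_eq_right (hG.nn e p he hp h1 hlv).2]
    · intro c hc hdc
      exact Ps.ce e c t' hc (fun h => h4 (by rw [h]; exact hdc))
  | succ k ih =>
    intro e hk he h1 hnf hlv
    obtain ⟨g, hg', h3, h4⟩ := Lv2.gate_of he hnf
    have t' : T3 X kd g e p := hX.t3 hg' he hp h3 h1
    have h5 := hL.dp_asc t' h4
    have h5' := hL.lt e p he hp h1
    obtain ⟨e₁, t₁, h6, _⟩ := hL.one_ds hX hg' hp t'.gp (by omega) (by omega)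
    have hne : e ≠ e₁ := by
      rintro rfl
      exact h4 h6
    have h7 := hL.dp_ds t₁ h6
    have hnf₁ : ¬ Fd X kd ds e₁ := fun hf => by
      obtain ⟨P, hP, hP1, hP2, hP3⟩ := hL.fold e₁ hf
      by_cases hpP : p = P
      · subst hpP
        omega
      · have := hL.cg_hg g₀ e₁ p hg hp h0 hd hf t₁.ep (hP3 p hp t₁.ep hpP)
        exact this
    have hl1 := hL.lev_ds g e₁ h6
    have hl2 := hL.lev_asc g e hg' he h3 h4
    obtain ⟨f, tf, ⟨w, hw⟩, h8, h9⟩ := ih e₁ (by omega) t₁.2.1 t₁.ep hnf₁ (by omega)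
    refine ⟨f, tf, ⟨SimpleGraph.Walk.cons (show (HGr X kd p).Adj e e₁ from ⟨hne, g, t', t₁⟩) w, ?_⟩, ?_, ?_⟩
    · rw [SimpleGraph.Walk.length_cons, hw]
    · rw [hG.st g e e₁ p t' t₁ h6 h4 hlv, h8, mm (hT.th_pos hX hp).le]
      push_cast
      ring_nf
    · intro c hc hdc
      exact Ps.step (k + 1) f e₁ g e c (h9 g t₁ h6) hne t' hc (fun h => h4 (by rw [h]; exact hdc))

/-- the branch of a hyperedge, the gate is the folded hyperedge `v` -/
theorem chH (hX : LX X kd m) (hT : TriX X kd m θ) (hL : Lv2 X kd m lv dp ds an o)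
    (hG : Gd X kd m lv dp ds θ o h₀ p₀ p₁ n t d) {v p : W} (hv : Fd X kd ds v) (hp : kd p = 2)
    (h0 : X.Edge v p) (hd : dp v p = 0) : ∀ (k : ℕ) (e : W), dp e p = k → kd e = 1 → X.Edge e p →
    (k ≠ 0 → ¬ Fd X kd ds e) → lv e < n → (∃ w : (HGr X kd p).Walk e v, w.length = k) ∧
      t e p = min 1 (k * θ p) ∧ ∀ c, T3 X kd c e p → ds c e → Ps X kd p v (k + 1) v e c := by
  intro k
  induction k with
  | zero =>
    intro e hk he h1 _ hlv
    by_cases hf : Fd X kd ds e
    · have h3 : e = v := hL.hg_u e v p hp hf hv h1 h0 hk hd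
      subst h3
      refine ⟨⟨SimpleGraph.Walk.nil, rfl⟩, ?_, fun c hc _ => Ps.hy c hc⟩
      rw [hG.fd0 e p hf hp h1 hlv hd, Nat.cast_zero, zero_mul, min_eq_right zero_le_one]
    · exfalso
      obtain ⟨g, hg', h3, h4⟩ := Lv2.gate_of he hf
      have t' : T3 X kd g e p := hX.t3 hg' he hp h3 h1
      have h5 := hL.dp_asc t' h4
      exact hL.cg_hg g v p hg' hp t'.gp (by omega) hv h0 hd
  | succ k ih =>
    intro e hk he h1 hnf' hlv
    have hnf := hnf' (by omega)
    obtain ⟨g, hg', h3, h4⟩ := Lv2.gate_of he hnf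
    have t' : T3 X kd g e p := hX.t3 hg' he hp h3 h1
    have h5 := hL.dp_asc t' h4
    have h5' := hL.lt e p he hp h1
    obtain ⟨e₁, t₁, h6, _⟩ := hL.one_ds hX hg' hp t'.gp (by omega) (by omega)
    have hne : e ≠ e₁ := by
      rintro rfl
      exact h4 h6
    have h7 := hL.dp_ds t₁ h6
    have hnf₁ : k ≠ 0 → ¬ Fd X kd ds e₁ := fun hk0 hf => by
      obtain ⟨P, hP, hP1, hP2, hP3⟩ := hL.fold e₁ hf
      by_cases hpP : p = P
      · subst hpP
        omega
      · have := hP3 p hp t₁.ep hpP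
        omega
    have hl1 := hL.lev_ds g e₁ h6
    have hl2 := hL.lev_asc g e hg' he h3 h4
    obtain ⟨⟨w, hw⟩, h8, h9⟩ := ih e₁ (by omega) t₁.2.1 t₁.ep hnf₁ (by omega)
    refine ⟨⟨SimpleGraph.Walk.cons (show (HGr X kd p).Adj e e₁ from ⟨hne, g, t', t₁⟩) w, ?_⟩, ?_, ?_⟩
    · rw [SimpleGraph.Walk.length_cons, hw]
    · rw [hG.st g e e₁ p t' t₁ h6 h4 hlv, h8]
      have h10 := mm (a := 0) (b := k * θ p) (hT.th_pos hX hp).le
      rw [zero_add, zero_add] at h10
      rw [h10]
      push_cast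
      ring_nf
    · intro c hc hdc
      exact Ps.step (k + 1) v e₁ g e c (h9 g t₁ h6) hne t' hc (fun h => h4 (by rw [h]; exact hdc))

/-- a folded hyperedge with positive depth -/
theorem fd_pos (hL : Lv2 X kd m lv dp ds an o) {e p : W} (h : Fd X kd ds e) (hp : kd p = 2) (h1 : X.Edge e p)
    (h0 : dp e p ≠ 0) : dp e p + 1 = m p := by
  obtain ⟨P, _, _, h5, h6⟩ := hL.fold e h
  by_cases h7 : p = P
  · subst h7
    exact h5
  · exact absurd (h6 p hp h1 h7) h0

/-- the two descending hyperedges of a far chamber -/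
theorem far_sum (hX : LX X kd m) (hT : TriX X kd m θ) (hL : Lv2 X kd m lv dp ds an o)
    (hG : Gd X kd m lv dp ds θ o h₀ p₀ p₁ n t d) {g a b P : W} (ha : T3 X kd g a P) (hb : T3 X kd g b P)
    (h1 : ds g a) (h2 : ds g b) (hne : a ≠ b) (hlv : lv g ≤ n) : 2 - θ P ≤ t a P + t b P := by
  have hm := hX.mu P ha.2.2.1
  have hg := hL.near hX ha hb h1 h2 hne
  have da := hL.dp_ds ha h1
  have db := hL.dp_ds hb h2
  have la := hL.lev_ds g a h1
  have lb := hL.lev_ds g b h2
  have hθ := hT.th_pos hX ha.2.2.1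
  have hθm := hT.th_m hX ha.2.2.1
  have hc : ((dp a P : ℕ) : ℝ) = m P - 1 := by
    have : dp a P + 1 = m P := by omega
    have h3 : ((dp a P : ℕ) : ℝ) + 1 = m P := by exact_mod_cast this
    linarith
  have hc' : ((dp b P : ℕ) : ℝ) = m P - 1 := by
    have : dp b P + 1 = m P := by omega
    have h3 : ((dp b P : ℕ) : ℝ) + 1 = m P := by exact_mod_cast this
    linarith
  -- a folded hyperedge has angle one, the others have angle at least `1 - θ`
  have key : ∀ {e s : ℝ}, 0 ≤ s → e = min 1 (s + (m P - 1) * θ P) → 1 - θ P ≤ e := by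
    intro e s hs he
    rw [he, le_min_iff]
    constructor
    · linarith
    · linarith
  by_cases fa : Fd X kd ds a
  · have t1 : t a P = 1 := hG.fd1 a P fa ha.2.2.1 ha.ep (by omega) (by omega)
    by_cases fb : Fd X kd ds b
    · have t2 : t b P = 1 := hG.fd1 b P fb hb.2.2.1 hb.ep (by omega) (by omega)
      linarith
    · have h5 : 1 - θ P ≤ t b P := by
        rcases hL.gate_ex P ha.2.2.1 with ⟨g₀, k1, k2, k3⟩ | ⟨v, k1, k2, k3⟩
        · obtain ⟨f, tf, -, h6, -⟩ := chC hX hT hL hG k1 ha.2.2.1 k2 k3 _ b rfl hb.2.1 hb.ep fb (by omega)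
          have h7 := (hG.nn f P tf.2.1 tf.2.2.1 tf.ep (by
            have h8 := hL.lev f P (by rw [tf.2.1]) tf.2.2.1 tf.ep
            have h9 := hL.lev b P (by rw [hb.2.1]) hb.2.2.1 hb.ep
            have h10 : dp f P = 0 := by
              have h11 : ¬ ds g₀ f := (hL.new_p g₀ P k1 ha.2.2.1 k2).1 k3 f tf
              have := hL.dp_asc tf h11
              omega
            omega)).1
          rw [hc'] at h6
          exact key h7 h6
        · obtain ⟨-, h6, -⟩ := chH hX hT hL hG k1 ha.2.2.1 k2 k3 _ b rfl hb.2.1 hb.ep (fun _ => fb) (by omega)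
          rw [hc', ← zero_add ((((m P : ℕ) : ℝ) - 1) * θ P)] at h6
          exact key le_rfl h6
      linarith
  · by_cases fb : Fd X kd ds b
    · have t2 : t b P = 1 := hG.fd1 b P fb hb.2.2.1 hb.ep (by omega) (by omega)
      have h5 : 1 - θ P ≤ t a P := by
        rcases hL.gate_ex P ha.2.2.1 with ⟨g₀, k1, k2, k3⟩ | ⟨v, k1, k2, k3⟩
        · obtain ⟨f, tf, -, h6, -⟩ := chC hX hT hL hG k1 ha.2.2.1 k2 k3 _ a rfl ha.2.1 ha.ep fa (by omega)
          have h7 := (hG.nn f P tf.2.1 tf.2.2.1 tf.ep (by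
            have h8 := hL.lev f P (by rw [tf.2.1]) tf.2.2.1 tf.ep
            have h9 := hL.lev b P (by rw [hb.2.1]) hb.2.2.1 hb.ep
            have h10 : dp f P = 0 := by
              have h11 : ¬ ds g₀ f := (hL.new_p g₀ P k1 ha.2.2.1 k2).1 k3 f tf
              have := hL.dp_asc tf h11
              omega
            omega)).1
          rw [hc] at h6
          exact key h7 h6
        · obtain ⟨-, h6, -⟩ := chH hX hT hL hG k1 ha.2.2.1 k2 k3 _ a rfl ha.2.1 ha.ep (fun _ => fa) (by omega)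
          rw [hc, ← zero_add ((((m P : ℕ) : ℝ) - 1) * θ P)] at h6
          exact key le_rfl h6
      linarith
    · rcases hL.gate_ex P ha.2.2.1 with ⟨g₀, k1, k2, k3⟩ | ⟨v, k1, k2, k3⟩
      · obtain ⟨f, tf, -, h6, h6'⟩ := chC hX hT hL hG k1 ha.2.2.1 k2 k3 _ a rfl ha.2.1 ha.ep fa (by omega)
        obtain ⟨f', tf', -, h7, h7'⟩ := chC hX hT hL hG k1 ha.2.2.1 k2 k3 _ b rfl hb.2.1 hb.ep fb (by omega)
        have hff : f ≠ f' := by
          intro hff
          have := (Ps.pu_ne hX (h6' g ha h1) (h7' g hb h2) hne).2 hff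
          omega
        have hdf : ∀ {f}, T3 X kd g₀ f P → lv f < n := by
          intro f tf
          have h8 := hL.lev f P (by rw [tf.2.1]) tf.2.2.1 tf.ep
          have h9 := hL.lev b P (by rw [hb.2.1]) hb.2.2.1 hb.ep
          have h10 : dp f P = 0 := by
            have h11 : ¬ ds g₀ f := (hL.new_p g₀ P k1 ha.2.2.1 k2).1 k3 f tf
            have := hL.dp_asc tf h11
            omega
          omega
        have hlg : lv g₀ < n := by
          have h8 := hL.lev g₀ P (by rw [k1]; omega) ha.2.2.1 k2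
          have h9 := hL.lev b P (by rw [hb.2.1]) hb.2.2.1 hb.ep
          omega
        have h8 := hG.nw g₀ f f' P tf tf' hff k3 hlg
        have h9 := (hG.nn f P tf.2.1 tf.2.2.1 tf.ep (hdf tf)).1
        have h10 := (hG.nn f' P tf'.2.1 tf'.2.2.1 tf'.ep (hdf tf')).1
        rw [hc] at h6
        rw [hc'] at h7
        have h11 := key h9 h6
        have h12 := key h10 h7
        rcases le_total 1 (t f P + (m P - 1) * θ P) with h13 | h13
        · rw [min_eq_left h13] at h6
          linarith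
        · rcases le_total 1 (t f' P + (m P - 1) * θ P) with h14 | h14
          · rw [min_eq_left h14] at h7
            linarith
          · rw [min_eq_right h13] at h6
            rw [min_eq_right h14] at h7
            rw [h6, h7]
            nlinarith
      · exfalso
        obtain ⟨-, -, h6'⟩ := chH hX hT hL hG k1 ha.2.2.1 k2 k3 _ a rfl ha.2.1 ha.ep (fun _ => fa) (by omega)
        obtain ⟨-, -, h7'⟩ := chH hX hT hL hG k1 ha.2.2.1 k2 k3 _ b rfl hb.2.1 hb.ep (fun _ => fb) (by omega)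
        have := (Ps.pu_ne hX (h6' g ha h1) (h7' g hb h2) hne).2 rfl
        omega

end Pool.Agent.H75.GLV
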