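import Pool.Agent.H52.T2.Lv
import Pool.Agent.H52.T2.Lvb

/-!
# [H75 GLV DEF] triangular chambers, angles and directions

The chambers of the complex are triangles: three hyperedges, three points. `θ p` is a real angle at the point `p`, at least `1 / m p`
and at most `1 / 2`, with sum one over the points of a chamber. For the levels of H52/T2 we construct real numbers `t e p` (the
angle at `p` between the hyperedge `e` and the direction of the root) and `d p` (the direction of the point `p` at the root)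
such that `|d p - d q| ≤ 1 - t e p - t e q` for the points `p, q` of the hyperedge `e`.
-/

set_option autoImplicit false

namespace Pool.Agent.H75.GLV

open Pool.Agent.H54.CX Pool.Agent.H52.T2

variable {W : Type}

/-- the hyperedges `x, e₁, e₂` and the points `p, q, r` of the chamber `g`: `x = (q r)`, `e₁ = (p q)`, `e₂ = (p r)` -/
structure Tr (X : Cpx W) (kd : W → ℕ) (g x e₁ e₂ p q r : W) : Prop where
  xe1 : x ≠ e₁
  xe2 : x ≠ e₂
  e12 : e₁ ≠ e₂
  pq : p ≠ q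
  pr : p ≠ r
  qr : q ≠ r
  xq : T3 X kd g x q
  xr : T3 X kd g x r
  e1p : T3 X kd g e₁ p
  e1q : T3 X kd g e₁ q
  e2p : T3 X kd g e₂ p
  e2r : T3 X kd g e₂ r
  all : ∀ e, kd e = 1 → X.Edge g e → e = x ∨ e = e₁ ∨ e = e₂

/-- the chambers are triangles, with the angles `θ` at the points -/
structure TriX (X : Cpx W) (kd m : W → ℕ) (θ : W → ℝ) : Prop where
  tri : ∀ g x, kd g = 0 → kd x = 1 → X.Edge g x → ∃ e₁ e₂ p q r, Tr X kd g x e₁ e₂ p q r
  two : ∀ e p q r, kd e = 1 → kd p = 2 → kd q = 2 → kd r = 2 → X.Edge e p → X.Edge e q → X.Edge e r → p = q ∨ p = r ∨ q = r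
  sum : ∀ g x e₁ e₂ p q r, Tr X kd g x e₁ e₂ p q r → θ p + θ q + θ r = 1
  lo : ∀ p, kd p = 2 → (1 : ℝ) / m p ≤ θ p
  hi : ∀ p, kd p = 2 → θ p ≤ 1 / 2

/-- angles and directions for the levels less than `n` -/
structure Gd (X : Cpx W) (kd : W → ℕ) (m : W → ℕ) (lv : W → ℕ) (dp : W → W → ℕ) (ds : W → W → Prop) (θ : W → ℝ)
    (o h₀ p₀ p₁ : W) (n : ℕ) (t : W → W → ℝ) (d : W → ℝ) : Prop where
  nn : ∀ e p, kd e = 1 → kd p = 2 → X.Edge e p → lv e < n → 0 ≤ t e p ∧ t e p ≤ 1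
  lip : ∀ e p q, kd e = 1 → kd p = 2 → kd q = 2 → X.Edge e p → X.Edge e q → p ≠ q → lv e < n →
    |d p - d q| ≤ 1 - t e p - t e q
  st : ∀ g e e' p, T3 X kd g e p → T3 X kd g e' p → ds g e' → ¬ ds g e → lv e < n → t e p = min 1 (t e' p + θ p)
  nw : ∀ g e e' p, T3 X kd g e p → T3 X kd g e' p → e ≠ e' → dp g p = 0 → lv g < n → t e p + t e' p = θ p
  fd1 : ∀ e p, Fd X kd ds e → kd p = 2 → X.Edge e p → lv e < n → dp e p ≠ 0 → t e p = 1
  fd0 : ∀ e p, Fd X kd ds e → kd p = 2 → X.Edge e p → lv e < n → dp e p = 0 → t e p = 0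
  rt : lv o < n → (∀ p, kd p = 2 → X.Edge h₀ p → t h₀ p = 0) ∧ d p₀ = 0 ∧ d p₁ = 1

namespace Tr

variable {X : Cpx W} {kd : W → ℕ} {g x e₁ e₂ p q r : W}

theorem sw (h : Tr X kd g x e₁ e₂ p q r) : Tr X kd g x e₂ e₁ p r q where
  xe1 := h.xe2
  xe2 := h.xe1
  e12 := h.e12.symm
  pq := h.pr
  pr := h.pq
  qr := h.qr.symm
  xq := h.xr
  xr := h.xq
  e1p := h.e2p
  e1q := h.e2r
  e2p := h.e1p
  e2r := h.e1q
  all e he h1 := by
    rcases h.all e he h1 with h2 | h2 | h2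
    · exact Or.inl h2
    · exact Or.inr (Or.inr h2)
    · exact Or.inr (Or.inl h2)

/-- rotation: `e₁ = (p q)` first; opposite point `r` -/
theorem rot (h : Tr X kd g x e₁ e₂ p q r) : Tr X kd g e₁ x e₂ r q p where
  xe1 := h.xe1.symm
  xe2 := h.e12
  e12 := h.xe2
  pq := h.qr.symm
  pr := h.pr.symm
  qr := h.pq.symm
  xq := h.e1q
  xr := h.e1p
  e1p := h.xr
  e1q := h.xq
  e2p := h.e2r
  e2r := h.e2p
  all e he h1 := by
    rcases h.all e he h1 with h2 | h2 | h2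
    · exact Or.inr (Or.inl h2)
    · exact Or.inl h2
    · exact Or.inr (Or.inr h2)

variable {m : W → ℕ} {θ : W → ℝ}

theorem hx (hT : TriX X kd m θ) (h : Tr X kd g x e₁ e₂ p q r) {v : W} (hv : T3 X kd g x v) : v = q ∨ v = r := by
  rcases hT.two x q r v h.xq.2.1 h.xq.2.2.1 h.xr.2.2.1 hv.2.2.1 h.xq.ep h.xr.ep hv.ep with h1 | h1 | h1
  · exact absurd h1 h.qr
  · exact Or.inl h1.symm
  · exact Or.inr h1.symm

theorem h1 (hT : TriX X kd m θ) (h : Tr X kd g x e₁ e₂ p q r) {v : W} (hv : T3 X kd g e₁ v) : v = p ∨ v = q :=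
  (h.rot.hx hT hv).symm

theorem h2 (hT : TriX X kd m θ) (h : Tr X kd g x e₁ e₂ p q r) {v : W} (hv : T3 X kd g e₂ v) : v = p ∨ v = r :=
  h.sw.h1 hT hv

theorem nx (hT : TriX X kd m θ) (h : Tr X kd g x e₁ e₂ p q r) (hv : T3 X kd g x p) : False := by
  rcases h.hx hT hv with h1 | h1
  · exact h.pq h1
  · exact h.pr h1

/-- the hyperedges at the point `p` -/
theorem atp (hT : TriX X kd m θ) (h : Tr X kd g x e₁ e₂ p q r) {e : W} (hv : T3 X kd g e p) : e = e₁ ∨ e = e₂ := by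
  rcases h.all e hv.2.1 hv.ge with h1 | h1 | h1
  · subst h1
    exact (h.nx hT hv).elim
  · exact Or.inl h1
  · exact Or.inr h1

/-- all incidences -/
theorem cases (hT : TriX X kd m θ) (h : Tr X kd g x e₁ e₂ p q r) {e v : W} (hv : T3 X kd g e v) :
    (e = x ∧ v = q) ∨ (e = x ∧ v = r) ∨ (e = e₁ ∧ v = p) ∨ (e = e₁ ∧ v = q) ∨ (e = e₂ ∧ v = p) ∨ (e = e₂ ∧ v = r) := by
  rcases h.all e hv.2.1 hv.ge with h1 | h1 | h1
  · subst h1
    rcases h.hx hT hv with h2 | h2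
    · exact Or.inl ⟨rfl, h2⟩
    · exact Or.inr (Or.inl ⟨rfl, h2⟩)
  · subst h1
    rcases h.h1 hT hv with h2 | h2
    · exact Or.inr (Or.inr (Or.inl ⟨rfl, h2⟩))
    · exact Or.inr (Or.inr (Or.inr (Or.inl ⟨rfl, h2⟩)))
  · subst h1
    rcases h.h2 hT hv with h2 | h2
    · exact Or.inr (Or.inr (Or.inr (Or.inr (Or.inl ⟨rfl, h2⟩))))
    · exact Or.inr (Or.inr (Or.inr (Or.inr (Or.inr ⟨rfl, h2⟩))))

end Tr

end Pool.Agent.H75.GLV
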