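import Pool.Agent.H75.GLV.Main

/-!
# [H75 GLV GIRTH] the girth of the graph of the points of two classes

The points of a chamber have three different classes, the points of the class `i` have the label `M i`,
`1 / M 0 + 1 / M 1 + 1 / M 2 ≤ 1`. A closed path with `2 k` sides through points of the classes `1` and `2` such that
consecutive sides are different and not in a common chamber has `k ≥ M 0`.
-/

set_option autoImplicit false

namespace Pool.Agent.H75.GLV

open Pool.Agent.H54.CX Pool.Agent.H52.T2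

variable {W : Type} {X : Cpx W} {kd : W → ℕ} {m : W → ℕ}

/-- the chambers are triangles with points of three classes -/
structure TriC (X : Cpx W) (kd m : W → ℕ) (c : W → Fin 3) (M : Fin 3 → ℕ) : Prop where
  tri : ∀ g x, kd g = 0 → kd x = 1 → X.Edge g x → ∃ e₁ e₂ p q r, Tr X kd g x e₁ e₂ p q r
  two : ∀ e p q r, kd e = 1 → kd p = 2 → kd q = 2 → kd r = 2 → X.Edge e p → X.Edge e q → X.Edge e r → p = q ∨ p = r ∨ q = r
  cls : ∀ g x e₁ e₂ p q r, Tr X kd g x e₁ e₂ p q r → c p ≠ c q ∧ c p ≠ c r ∧ c q ≠ c r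
  lab : ∀ p, kd p = 2 → m p = M (c p)

/-- the choice of the angles -/
theorem exists_angles (M : Fin 3 → ℕ) (hM : ∀ i, 2 ≤ M i) (hs : (1 : ℝ) / M 0 + 1 / M 1 + 1 / M 2 ≤ 1) :
    ∃ θ : Fin 3 → ℝ, (∀ i, (1 : ℝ) / M i ≤ θ i ∧ θ i ≤ 1 / 2) ∧ θ 0 + θ 1 + θ 2 = 1 ∧ θ 0 = 1 / M 0 := by
  have h2 : ∀ i, (1 : ℝ) / M i ≤ 1 / 2 := fun i => by
    have : (2 : ℝ) ≤ M i := by exact_mod_cast hM i
    exact one_div_le_one_div_of_le (by norm_num) this
  have hp : ∀ i, (0 : ℝ) < 1 / M i := fun i => by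
    have : (2 : ℝ) ≤ M i := by exact_mod_cast hM i
    positivity
  obtain ⟨a, ha⟩ : ∃ a : ℝ, a = 1 / M 0 := ⟨_, rfl⟩
  obtain ⟨b, hb⟩ : ∃ b : ℝ, b = 1 / M 1 := ⟨_, rfl⟩
  obtain ⟨c, hc⟩ : ∃ c : ℝ, c = 1 / M 2 := ⟨_, rfl⟩
  have a2 := h2 0
  have b2 := h2 1
  have c2 := h2 2
  have a0 := hp 0
  have b0 := hp 1
  have c0 := hp 2
  rw [← ha] at a2 a0
  rw [← hb] at b2 b0
  rw [← hc] at c2 c0
  rw [← ha, ← hb, ← hc] at hs
  obtain ⟨u, hu1, hu2, hu3, hu4⟩ : ∃ u : ℝ, b ≤ u ∧ u ≤ 1 / 2 ∧ c ≤ 1 - a - u ∧ 1 - a - u ≤ 1 / 2 := by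
    by_cases h : (1 - a) / 2 ≤ b
    · exact ⟨b, le_rfl, b2, by linarith, by linarith⟩
    · push Not at h
      by_cases h' : (1 - a) / 2 ≤ c
      · exact ⟨1 - a - c, by linarith, by linarith, by linarith, by linarith⟩
      · push Not at h'
        exact ⟨(1 - a) / 2, h.le, by linarith, by linarith, by linarith⟩
  refine ⟨fun i => if i = 0 then a else if i = 1 then u else 1 - a - u, ?_, ?_, ?_⟩
  · intro i
    fin_cases i
    · exact ⟨by simp [ha], by simpa using a2⟩
    · exact ⟨by simpa [← hb] using hu1, by simpa using hu2⟩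
    · refine ⟨?_, ?_⟩
      · simpa [← hc] using hu3
      · simpa using hu4
  · simp
  · simp [ha]

theorem girth (hX : LX X kd m) (hsc : X.SC) {c : W → Fin 3} {M : Fin 3 → ℕ} (hT : TriC X kd m c M) (hM : ∀ i, 2 ≤ M i)
    (hs : (1 : ℝ) / M 0 + 1 / M 1 + 1 / M 2 ≤ 1) {k : ℕ} (hk : 0 < k) (p h : ℕ → W)
    (hp : ∀ i, i ≤ 2 * k → kd (p i) = 2) (hh : ∀ i, i ≤ 2 * k → kd (h i) = 1) (e1 : ∀ i, i ≤ 2 * k → X.Edge (h i) (p i))
    (e2 : ∀ i, i < 2 * k → X.Edge (h i) (p (i + 1))) (hpn : p (2 * k) = p 0) (hhn : h (2 * k) = h 0)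
    (hc0 : ∀ i, i ≤ 2 * k → c (p i) ≠ 0) (hc : ∀ i, i < 2 * k → c (p i) ≠ c (p (i + 1)))
    (hd : ∀ i, i < 2 * k → h i ≠ h (i + 1)) (hna : ∀ i, i < 2 * k → ¬ (HGr X kd (p (i + 1))).Adj (h i) (h (i + 1))) :
    M 0 ≤ k := by
  obtain ⟨θ, h1, h2, h3⟩ := exists_angles M hM hs
  have hTX : TriX X kd m (fun p => θ (c p)) :=
    { tri := hT.tri
      two := hT.two
      sum := by
        intro g x e₁ e₂ p q r hTr
        obtain ⟨c1, c2, c3⟩ := hT.cls g x e₁ e₂ p q r hTr
        have key : ∀ a b d : Fin 3, a ≠ b → a ≠ d → b ≠ d → θ a + θ b + θ d = 1 := by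
          intro a b d
          fin_cases a <;> fin_cases b <;> fin_cases d <;> intro hab had hbd <;>
          first
            | exact absurd rfl hab
            | exact absurd rfl had
            | exact absurd rfl hbd
            | (simp only [Fin.zero_eta, Fin.mk_one, Fin.reduceFinMk]; linarith)
        exact key _ _ _ c1 c2 c3
      lo := fun p hp => by
        rw [hT.lab p hp]
        exact (h1 (c p)).1
      hi := fun p _ => (h1 (c p)).2 }
  have hG := gauss hX hsc hTX (n := 2 * k) (by omega) p h hp hh e1 e2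
    (fun i hi he => hc i hi (by rw [he])) hpn hhn hd hna
  have hsum : ∀ j, j ≤ k → ∑ i ∈ Finset.range (2 * j), 2 * θ (c (p i)) = j * (2 * (1 - θ 0)) := by
    intro j
    induction j with
    | zero =>
      intro _
      simp
    | succ j ih =>
      intro hj
      rw [show 2 * (j + 1) = 2 * j + 1 + 1 by ring, Finset.sum_range_succ, Finset.sum_range_succ, ih (by omega)]
      have k1 := hc0 (2 * j) (by omega)
      have k2 := hc0 (2 * j + 1) (by omega)
      have k3 := hc (2 * j) (by omega)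
      have key : ∀ a b : Fin 3, a ≠ 0 → b ≠ 0 → a ≠ b → θ a + θ b = 1 - θ 0 := by
        intro a b
        fin_cases a <;> fin_cases b <;> intro ha hb hab <;>
        first
          | exact absurd rfl ha
          | exact absurd rfl hb
          | exact absurd rfl hab
          | (simp only [Fin.zero_eta, Fin.mk_one, Fin.reduceFinMk]; linarith)
      have k4 := key _ _ k1 k2 k3
      push_cast
      linarith
  rw [hsum k le_rfl, h3] at hG
  have h4 : (0 : ℝ) < M 0 := by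
    have : (2 : ℝ) ≤ M 0 := by exact_mod_cast hM 0
    linarith
  have h5 : (1 : ℝ) ≤ k * (1 / M 0) := by
    push_cast at hG
    linarith
  have h6 : (M 0 : ℝ) ≤ k := by
    rw [mul_one_div, le_div_iff₀ h4] at h5
    linarith
  exact_mod_cast h6

end Pool.Agent.H75.GLV
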