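import Pool.Agent.H75.GLV.Loc

/-!
# [H75 GLV IND] the induction on the level

`step`: angles and directions for the levels less than `n` are changed at the level `n`: for a gated hyperedge by the local data
of the gate (`loc`), for a folded hyperedge `1` or `0`; the direction of a point whose gate is a hyperedge folded at `P` is the
direction of `P`.
-/

set_option autoImplicit false

namespace Pool.Agent.H75.GLV

open Pool.Agent.H54.CX Pool.Agent.H52.T2

variable {W : Type} {X : Cpx W} {kd : W → ℕ} {m : W → ℕ} {lv : W → ℕ} {dp : W → W → ℕ} {ds : W → W → Prop}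
  {an : W → W → ℝ} {θ : W → ℝ} {o h₀ p₀ p₁ : W} {n : ℕ} {t : W → W → ℝ} {d : W → ℝ}

theorem zero : Gd X kd m lv dp ds θ o h₀ p₀ p₁ 0 t d where
  nn _ _ _ _ _ h := absurd h (Nat.not_lt_zero _)
  lip _ _ _ _ _ _ _ _ _ h := absurd h (Nat.not_lt_zero _)
  st _ _ _ _ _ _ _ _ h := absurd h (Nat.not_lt_zero _)
  nw _ _ _ _ _ _ _ _ h := absurd h (Nat.not_lt_zero _)
  fd1 _ _ _ _ _ h _ := absurd h (Nat.not_lt_zero _)
  fd0 _ _ _ _ _ h _ := absurd h (Nat.not_lt_zero _)
  rt h := absurd h (Nat.not_lt_zero _)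

theorem step (hX : LX X kd m) (hT : TriX X kd m θ) (hL : Lv2 X kd m lv dp ds an o)
    (hG : Gd X kd m lv dp ds θ o h₀ p₀ p₁ n t d) (h0 : T3 X kd o h₀ p₀) (h1 : T3 X kd o h₀ p₁) (hne : p₀ ≠ p₁) :
    ∃ t' d', Gd X kd m lv dp ds θ o h₀ p₀ p₁ (n + 1) t' d' := by
  classical
  have hloc : ∀ g : W, ∃ τy : (W → W → ℝ) × (W → ℝ), kd g = 0 → lv g ≤ n →
      Lc X kd dp ds θ o h₀ p₀ p₁ t d g τy.1 τy.2 := by
    intro g
    by_cases h : kd g = 0 ∧ lv g ≤ n
    · obtain ⟨τ, y, h2⟩ := loc hX hT hL hG h0 h1 hne g h.1 h.2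
      exact ⟨(τ, y), fun _ _ => h2⟩
    · exact ⟨(t, d), fun h2 h3 => absurd ⟨h2, h3⟩ h⟩
  choose τy hτy using hloc
  -- the gates
  have hgate : ∀ e : W, ∃ g : W, kd e = 1 → ¬ Fd X kd ds e → kd g = 0 ∧ X.Edge g e ∧ ¬ ds g e := by
    intro e
    by_cases h : kd e = 1 ∧ ¬ Fd X kd ds e
    · obtain ⟨g, hg⟩ := Lv2.gate_of h.1 h.2
      exact ⟨g, fun _ _ => hg⟩
    · exact ⟨e, fun h2 h3 => absurd ⟨h2, h3⟩ h⟩
  choose ga hga using hgate
  have hcg : ∀ p : W, ∃ g : W, Cg X kd dp p → kd g = 0 ∧ X.Edge g p ∧ dp g p = 0 := by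
    intro p
    by_cases h : Cg X kd dp p
    · obtain ⟨g, hg⟩ := h
      exact ⟨g, fun _ => hg⟩
    · exact ⟨p, fun h2 => absurd h2 h⟩
  choose cg hcg' using hcg
  have hhg : ∀ p : W, ∃ P : W, kd p = 2 → ¬ Cg X kd dp p → ∃ e, Fd X kd ds e ∧ X.Edge e p ∧ dp e p = 0 ∧ kd P = 2 ∧
      X.Edge e P ∧ dp e P + 1 = m P := by
    intro p
    by_cases h : kd p = 2 ∧ ¬ Cg X kd dp p
    · rcases hL.gate_ex p h.1 with ⟨g, hg⟩ | ⟨e, he, he1, he2⟩
      · exact absurd ⟨g, hg⟩ h.2
      · obtain ⟨P, hP, hP1, hP2, -⟩ := hL.fold e he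
        exact ⟨P, fun _ _ => ⟨e, he, he1, he2, hP, hP1, hP2⟩⟩
    · exact ⟨p, fun h2 h3 => absurd ⟨h2, h3⟩ h⟩
  choose hp hhp using hhg
  obtain ⟨t', ht'⟩ : ∃ t' : W → W → ℝ, ∀ e p, t' e p = if lv e = n then
      (if Fd X kd ds e then (if dp e p = 0 then 0 else 1) else (τy (ga e)).1 e p) else t e p := ⟨_, fun _ _ => rfl⟩
  obtain ⟨d', hd'⟩ : ∃ d' : W → ℝ, ∀ p, d' p = if lv p = n then
      (if Cg X kd dp p then (τy (cg p)).2 p else d (hp p)) else d p := ⟨_, fun _ => rfl⟩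
  -- values
  have tlow : ∀ {e p}, lv e < n → t' e p = t e p := fun h => by rw [ht', if_neg (by omega)]
  have dlow : ∀ {p}, lv p < n → d' p = d p := fun h => by rw [hd', if_neg (by omega)]
  have gu : ∀ {g e}, kd g = 0 → kd e = 1 → X.Edge g e → ¬ ds g e → ¬ Fd X kd ds e ∧ ga e = g := by
    intro g e hg he hge hn
    have hnf : ¬ Fd X kd ds e := fun h => hn (h.2 g hg hge)
    obtain ⟨k1, k2, k3⟩ := hga e he hnf
    exact ⟨hnf, hL.gate_u _ _ _ k1 hg he k2 hge k3 hn⟩
  have tgate : ∀ {g e p}, T3 X kd g e p → ¬ ds g e → lv g = n → t' e p = (τy g).1 e p := by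
    intro g e p hT3 hn hlv
    obtain ⟨hnf, hgg⟩ := gu hT3.1 hT3.2.1 hT3.ge hn
    have hle := hL.lev_asc g e hT3.1 hT3.2.1 hT3.ge hn
    rw [ht', if_pos (by omega), if_neg hnf, hgg]
  have dgate : ∀ {g e p}, T3 X kd g e p → lv g = n → d' p = (τy g).2 p := by
    intro g e p hT3 hlv
    have hlp := hL.lev g p (by rw [hT3.1]; omega) hT3.2.2.1 hT3.gp
    by_cases hz : dp g p = 0
    · have hc : Cg X kd dp p := ⟨g, hT3.1, hT3.gp, hz⟩
      obtain ⟨k1, k2, k3⟩ := hcg' p hc
      have hgg : cg p = g := hL.cg_u _ _ _ k1 hT3.1 hT3.2.2.1 k2 hT3.gp k3 hz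
      rw [hd', if_pos (by omega), if_pos hc, hgg]
    · rw [dlow (by omega), (hτy g hT3.1 (by omega)).old e p hT3 hz]
  refine ⟨t', d', ?_, ?_, ?_, ?_, ?_, ?_, ?_⟩
  · intro e p he hp' hep hlv
    rcases Nat.lt_succ_iff_lt_or_eq.1 hlv with h2 | h2
    · rw [tlow h2]
      exact hG.nn e p he hp' hep h2
    · by_cases hf : Fd X kd ds e
      · rw [ht', if_pos h2, if_pos hf]
        split_ifs <;> norm_num
      · obtain ⟨g, k1, k2, k3⟩ := Lv2.gate_of he hf
        have hT3 : T3 X kd g e p := hX.t3 k1 he hp' k2 hep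
        have hle := hL.lev_asc g e k1 he k2 k3
        rw [tgate hT3 k3 (by omega)]
        exact (hτy g k1 (by omega)).nn e p hT3 k3
  · intro e p q he hp' hq' hep heq hpq hlv
    rcases Nat.lt_succ_iff_lt_or_eq.1 hlv with h2 | h2
    · have k1 := hL.lev e p (by rw [he]) hp' hep
      have k2 := hL.lev e q (by rw [he]) hq' heq
      rw [tlow h2, tlow h2, dlow (by omega), dlow (by omega)]
      exact hG.lip e p q he hp' hq' hep heq hpq h2
    · by_cases hf : Fd X kd ds e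
      · obtain ⟨P, hP, hP1, hP2, hP3⟩ := hL.fold e hf
        -- the two points are the point `P` and another one
        have key : ∀ q, kd q = 2 → X.Edge e q → q ≠ P → d' q = d' P ∧ t' e q = 0 ∧ t' e P = 1 := by
          intro q hq hq1 hq2
          have h3 := hP3 q hq hq1 hq2
          have h4 := hL.lev e q (by rw [he]) hq hq1
          have h5 := hL.lev e P (by rw [he]) hP hP1
          have h6 := hX.mu P hP
          have hnc : ¬ Cg X kd dp q := fun ⟨g, g1, g2, g3⟩ => hL.cg_hg g e q g1 hq g2 g3 hf hq1 h3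
          obtain ⟨e', k1, k2, k3, k4, k5, k6⟩ := hhp q hq hnc
          have k7 : e' = e := hL.hg_u e' e q hq k1 hf k2 hq1 k3 h3
          rw [k7] at k5 k6
          have k8 : hp q = P := by
            by_contra k8
            have k9 := hP3 (hp q) k4 k5 k8
            have k10 := hX.mu (hp q) k4
            omega
          refine ⟨?_, ?_, ?_⟩
          · rw [hd', if_pos (by omega), if_neg hnc, k8, dlow (by omega)]
          · rw [ht', if_pos h2, if_pos hf, if_pos h3]
          · rw [ht', if_pos h2, if_pos hf, if_neg (by omega)]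
        by_cases hpP : p = P
        · subst hpP
          obtain ⟨k1, k2, k3⟩ := key q hq' heq (Ne.symm hpq)
          rw [k1, k2, k3, sub_self, abs_zero]
          norm_num
        · by_cases hqP : q = P
          · subst hqP
            obtain ⟨k1, k2, k3⟩ := key p hp' hep hpP
            rw [k1, k2, k3, sub_self, abs_zero]
            norm_num
          · rcases hT.two e p q P he hp' hq' hP hep heq hP1 with h | h | h
            · exact absurd h hpq
            · exact absurd h hpP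
            · exact absurd h hqP
      · obtain ⟨g, k1, k2, k3⟩ := Lv2.gate_of he hf
        have hT3 : T3 X kd g e p := hX.t3 k1 he hp' k2 hep
        have hT3' : T3 X kd g e q := hX.t3 k1 he hq' k2 heq
        have hle := hL.lev_asc g e k1 he k2 k3
        rw [tgate hT3 k3 (by omega), tgate hT3' k3 (by omega), dgate hT3 (by omega), dgate hT3' (by omega)]
        exact (hτy g k1 (by omega)).lip e p q hT3 hT3' k3 hpq
  · intro g e e' p hT3 hT3' hds hnds hlv
    have hle := hL.lev_asc g e hT3.1 hT3.2.1 hT3.ge hnds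
    have hle' := hL.lev_ds g e' hds
    rcases Nat.lt_succ_iff_lt_or_eq.1 hlv with h2 | h2
    · rw [tlow h2, tlow (by omega)]
      exact hG.st g e e' p hT3 hT3' hds hnds h2
    · rw [tgate hT3 hnds (by omega), tlow (e := e') (by omega)]
      exact (hτy g hT3.1 (by omega)).st e e' p hT3 hT3' hds hnds
  · intro g e e' p hT3 hT3' hne' hz hlv
    have hn := (hL.new_p g p hT3.1 hT3.2.2.1 hT3.gp).1 hz
    have hle := hL.lev_asc g e hT3.1 hT3.2.1 hT3.ge (hn e hT3)
    have hle' := hL.lev_asc g e' hT3.1 hT3'.2.1 hT3'.ge (hn e' hT3')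
    rcases Nat.lt_succ_iff_lt_or_eq.1 hlv with h2 | h2
    · rw [tlow (by omega), tlow (by omega)]
      exact hG.nw g e e' p hT3 hT3' hne' hz h2
    · rw [tgate hT3 (hn e hT3) (by omega), tgate hT3' (hn e' hT3') (by omega)]
      exact (hτy g hT3.1 (by omega)).nw e e' p hT3 hT3' hne' hz
  · intro e p hf hp' hep hlv hz
    rcases Nat.lt_succ_iff_lt_or_eq.1 hlv with h2 | h2
    · rw [tlow h2]
      exact hG.fd1 e p hf hp' hep h2 hz
    · rw [ht', if_pos h2, if_pos hf, if_neg hz]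
  · intro e p hf hp' hep hlv hz
    rcases Nat.lt_succ_iff_lt_or_eq.1 hlv with h2 | h2
    · rw [tlow h2]
      exact hG.fd0 e p hf hp' hep h2 hz
    · rw [ht', if_pos h2, if_pos hf, if_pos hz]
  · intro hlv
    have hnd : ¬ ds o h₀ := no_ds hX hL h₀
    have hle := hL.lev_asc o h₀ h0.1 h0.2.1 h0.ge hnd
    have l0 := hL.lev o p₀ (by rw [h0.1]; omega) h0.2.2.1 h0.gp
    have l1 := hL.lev o p₁ (by rw [h0.1]; omega) h1.2.2.1 h1.gp
    rcases Nat.lt_succ_iff_lt_or_eq.1 hlv with h2 | h2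
    · obtain ⟨k1, k2, k3⟩ := hG.rt h2
      refine ⟨fun p hp' hep => ?_, ?_, ?_⟩
      · rw [tlow (by omega)]
        exact k1 p hp' hep
      · rw [dlow (by omega)]
        exact k2
      · rw [dlow (by omega)]
        exact k3
    · obtain ⟨k1, k2, k3⟩ := (hτy o h0.1 (by omega)).rt rfl
      refine ⟨fun p hp' hep => ?_, ?_, ?_⟩
      · have hT3 : T3 X kd o h₀ p := hX.t3 h0.1 h0.2.1 hp' h0.ge hep
        rw [tgate hT3 hnd (by omega)]
        exact k1 p hT3
      · rw [dgate h0 (by omega)]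
        exact k2
      · rw [dgate h1 (by omega)]
        exact k3

/-- angles and directions -/
theorem exists_gd (hX : LX X kd m) (hT : TriX X kd m θ) (hL : Lv2 X kd m lv dp ds an o)
    (h0 : T3 X kd o h₀ p₀) (h1 : T3 X kd o h₀ p₁) (hne : p₀ ≠ p₁) (n : ℕ) :
    ∃ t d, Gd X kd m lv dp ds θ o h₀ p₀ p₁ n t d := by
  induction n with
  | zero => exact ⟨fun _ _ => 0, fun _ => 0, zero⟩
  | succ n ih =>
    obtain ⟨t, d, hG⟩ := ih
    exact step hX hT hL hG h0 h1 hne

end Pool.Agent.H75.GLV
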