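import Pool.Agent.H75.GLV.Ve

/-!
# [H75 GLV LOC] angles and directions at a chamber

`loc`: if the angles `t` and directions `d` are constructed for the levels less than `n` and `g` is a chamber of level `n`,
there are angles of the ascending hyperedges of `g` and a direction of the new point of `g`.
-/

set_option autoImplicit false
set_option linter.unusedSimpArgs false

namespace Pool.Agent.H75.GLV

open Pool.Agent.H54.CX Pool.Agent.H52.T2

variable {W : Type} {X : Cpx W} {kd : W → ℕ} {m : W → ℕ} {lv : W → ℕ} {dp : W → W → ℕ} {ds : W → W → Prop}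
  {an : W → W → ℝ} {θ : W → ℝ} {o h₀ p₀ p₁ : W} {n : ℕ} {t : W → W → ℝ} {d : W → ℝ}

/-- angles `τ` of the ascending hyperedges and directions `y` of the points of the chamber `g` -/
structure Lc (X : Cpx W) (kd : W → ℕ) (dp : W → W → ℕ) (ds : W → W → Prop) (θ : W → ℝ)
    (o h₀ p₀ p₁ : W) (t : W → W → ℝ) (d : W → ℝ) (g : W) (τ : W → W → ℝ) (y : W → ℝ) : Prop where
  nn : ∀ e p, T3 X kd g e p → ¬ ds g e → 0 ≤ τ e p ∧ τ e p ≤ 1
  lip : ∀ e p q, T3 X kd g e p → T3 X kd g e q → ¬ ds g e → p ≠ q → |y p - y q| ≤ 1 - τ e p - τ e q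
  st : ∀ e e' p, T3 X kd g e p → T3 X kd g e' p → ds g e' → ¬ ds g e → τ e p = min 1 (t e' p + θ p)
  nw : ∀ e e' p, T3 X kd g e p → T3 X kd g e' p → e ≠ e' → dp g p = 0 → τ e p + τ e' p = θ p
  old : ∀ e p, T3 X kd g e p → dp g p ≠ 0 → y p = d p
  rt : g = o → (∀ p, T3 X kd g h₀ p → τ h₀ p = 0) ∧ y p₀ = 0 ∧ y p₁ = 1

/-- the choice of the angle at the new point -/
private theorem choice {θp Tq Tr dq dr : ℝ} (h0 : 0 ≤ θp) (h0' : θp ≤ 1) (hq : Tq ≤ 1) (hr : Tr ≤ 1) (hs : Tq + Tr ≤ 2 - θp)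
    (hd : |dq - dr| ≤ 2 - θp - Tq - Tr) : ∃ s y : ℝ, 0 ≤ s ∧ s ≤ θp ∧ |y - dq| ≤ 1 - s - Tq ∧
      |y - dr| ≤ 1 - (θp - s) - Tr := by
  -- the angle
  obtain ⟨s, s1, s2, s3, s4⟩ : ∃ s : ℝ, 0 ≤ s ∧ s ≤ θp ∧ s ≤ 1 - Tq ∧ θp - 1 + Tr ≤ s := by
    refine ⟨max 0 (θp - 1 + Tr), le_max_left _ _, max_le h0 (by linarith), max_le (by linarith) (by linarith),
      le_max_right _ _⟩
  obtain ⟨a, ha⟩ : ∃ a, a = 1 - s - Tq := ⟨_, rfl⟩
  obtain ⟨b, hb⟩ : ∃ b, b = 1 - (θp - s) - Tr := ⟨_, rfl⟩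
  have ha0 : 0 ≤ a := by linarith
  have hb0 : 0 ≤ b := by linarith
  have hab : |dq - dr| ≤ a + b := by linarith
  rcases abs_le.1 hab with ⟨k1, k2⟩
  refine ⟨s, max (dq - a) (min (dq + a) dr), s1, s2, ?_, ?_⟩
  · rw [← ha, abs_le]
    constructor
    · have := le_max_left (dq - a) (min (dq + a) dr)
      linarith
    · have : max (dq - a) (min (dq + a) dr) ≤ dq + a := max_le (by linarith) (min_le_left _ _)
      linarith
  · rw [← hb, abs_le]
    constructor
    · have h1 : dr - b ≤ min (dq + a) dr := le_min (by linarith) (by linarith)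
      have := le_max_right (dq - a) (min (dq + a) dr)
      linarith
    · have : max (dq - a) (min (dq + a) dr) ≤ dr + b := max_le (by linarith) ((min_le_right _ _).trans (by linarith))
      linarith

/-- one descending hyperedge -/
private theorem one (hX : LX X kd m) (hT : TriX X kd m θ) (hL : Lv2 X kd m lv dp ds an o)
    (hG : Gd X kd m lv dp ds θ o h₀ p₀ p₁ n t d) {g x e₁ e₂ p q r : W} (h : Tr X kd g x e₁ e₂ p q r)
    (hx : ds g x) (h1 : ¬ ds g e₁) (h2 : ¬ ds g e₂) (hlv : lv g ≤ n) :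
    ∃ τ y, Lc X kd dp ds θ o h₀ p₀ p₁ t d g τ y := by
  classical
  have hp := h.e1p.2.2.1
  have hq := h.xq.2.2.1
  have hr := h.xr.2.2.1
  have hlx := hL.lev_ds g x hx
  have hsum := hT.sum g x e₁ e₂ p q r h
  have tp := hT.th_pos hX hp
  have tq := hT.th_pos hX hq
  have tr := hT.th_pos hX hr
  have nq := hG.nn x q h.xq.2.1 hq h.xq.ep (by omega)
  have nr := hG.nn x r h.xr.2.1 hr h.xr.ep (by omega)
  have hlip := hG.lip x q r h.xq.2.1 hq hr h.xq.ep h.xr.ep h.qr (by omega)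
  have hlip0 : t x q + t x r ≤ 1 := by
    have := abs_nonneg (d q - d r)
    linarith
  have lq : min 1 (t x q + θ q) ≤ t x q + θ q := min_le_right _ _
  have lr : min 1 (t x r + θ r) ≤ t x r + θ r := min_le_right _ _
  have hT1 := hT.hi p hp
  obtain ⟨s, y, s1, s2, s3, s4⟩ := choice (θp := θ p) (Tq := min 1 (t x q + θ q)) (Tr := min 1 (t x r + θ r))
    (dq := d q) (dr := d r) tp.le (by linarith) (min_le_left _ _) (min_le_left _ _) (by linarith) (by linarith)
  have dq0 : dp g q ≠ 0 := by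
    have := hL.dp_ds h.xq hx
    omega
  have dr0 : dp g r ≠ 0 := by
    have := hL.dp_ds h.xr hx
    omega
  have dp0 : dp g p = 0 := (hL.new_p g p h.e1p.1 hp h.e1p.gp).2 (fun e he => by
    rcases h.atp hT he with h3 | h3
    · rw [h3]
      exact h1
    · rw [h3]
      exact h2)
  have Tq0 : 0 ≤ min 1 (t x q + θ q) := le_min zero_le_one (by linarith)
  have Tr0 : 0 ≤ min 1 (t x r + θ r) := le_min zero_le_one (by linarith)
  have ne21 : e₂ ≠ e₁ := h.e12.symm
  refine ⟨fun e v => if e = e₁ then (if v = p then s else min 1 (t x q + θ q)) else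
    (if v = p then θ p - s else min 1 (t x r + θ r)), fun v => if v = p then y else d v, ?_, ?_, ?_, ?_, ?_, ?_⟩
  · intro e v hv hn
    rcases h.cases hT hv with ⟨rfl, rfl⟩ | ⟨rfl, rfl⟩ | ⟨rfl, rfl⟩ | ⟨rfl, rfl⟩ | ⟨rfl, rfl⟩ | ⟨rfl, rfl⟩
    · exact absurd hx hn
    · exact absurd hx hn
    · simp only [if_true]
      exact ⟨s1, by linarith⟩
    · simp only [if_true, if_neg h.pq.symm]
      exact ⟨Tq0, min_le_left _ _⟩
    · simp only [if_true, if_neg ne21]
      exact ⟨by linarith, by linarith⟩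
    · simp only [if_neg h.pr.symm, if_neg ne21]
      exact ⟨Tr0, min_le_left _ _⟩
  · intro e u v hu hv hn hne
    rcases h.cases hT hu with ⟨rfl, rfl⟩ | ⟨rfl, rfl⟩ | ⟨rfl, rfl⟩ | ⟨rfl, rfl⟩ | ⟨rfl, rfl⟩ | ⟨rfl, rfl⟩
    · exact absurd hx hn
    · exact absurd hx hn
    · rcases h.h1 hT hv with rfl | rfl
      · exact absurd rfl hne
      · simp only [if_true, if_neg h.pq.symm]
        exact s3
    · rcases h.h1 hT hv with rfl | rfl
      · simp only [if_true, if_neg h.pq.symm]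
        rw [abs_sub_comm]
        linarith
      · exact absurd rfl hne
    · rcases h.h2 hT hv with rfl | rfl
      · exact absurd rfl hne
      · simp only [if_true, if_neg h.pr.symm, if_neg ne21]
        exact s4
    · rcases h.h2 hT hv with rfl | rfl
      · simp only [if_true, if_neg h.pr.symm, if_neg ne21]
        rw [abs_sub_comm]
        linarith
      · exact absurd rfl hne
  · intro e e' v hv hv' hd hn
    rcases h.cases hT hv' with ⟨rfl, rfl⟩ | ⟨rfl, rfl⟩ | ⟨rfl, rfl⟩ | ⟨rfl, rfl⟩ | ⟨rfl, rfl⟩ | ⟨rfl, rfl⟩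
    · rcases h.cases hT hv with ⟨rfl, h5⟩ | ⟨rfl, h5⟩ | ⟨rfl, h5⟩ | ⟨rfl, h5⟩ | ⟨rfl, h5⟩ | ⟨rfl, h5⟩
      · exact absurd hx hn
      · exact absurd hx hn
      · exact absurd h5 h.pq.symm
      · simp only [if_true, if_neg h.pq.symm]
      · exact absurd h5 h.pq.symm
      · exact absurd h5 h.qr
    · rcases h.cases hT hv with ⟨rfl, h5⟩ | ⟨rfl, h5⟩ | ⟨rfl, h5⟩ | ⟨rfl, h5⟩ | ⟨rfl, h5⟩ | ⟨rfl, h5⟩
      · exact absurd hx hn
      · exact absurd hx hn
      · exact absurd h5 h.pr.symm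
      · exact absurd h5 h.qr.symm
      · exact absurd h5 h.pr.symm
      · simp only [if_neg h.pr.symm, if_neg ne21]
    · exact absurd hd h1
    · exact absurd hd h1
    · exact absurd hd h2
    · exact absurd hd h2
  · intro e e' v hv hv' hne h0
    rcases h.cases hT hv with ⟨rfl, rfl⟩ | ⟨rfl, rfl⟩ | ⟨rfl, rfl⟩ | ⟨rfl, rfl⟩ | ⟨rfl, rfl⟩ | ⟨rfl, rfl⟩
    · exact absurd h0 dq0
    · exact absurd h0 dr0
    · rcases h.atp hT hv' with rfl | rfl
      · exact absurd rfl hne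
      · simp only [if_true, if_neg ne21]
        ring
    · exact absurd h0 dq0
    · rcases h.atp hT hv' with rfl | rfl
      · simp only [if_true, if_neg ne21]
        ring
      · exact absurd rfl hne
    · exact absurd h0 dr0
  · intro e v hv h0
    have : v ≠ p := by
      rintro rfl
      exact h0 dp0
    simp only [if_neg this]
  · intro hgo
    rw [hgo] at hx
    exact absurd hx (no_ds hX hL x)

/-- two descending hyperedges `x = (q r)`, `e₁ = (p q)` -/
private theorem two (hX : LX X kd m) (hT : TriX X kd m θ) (hL : Lv2 X kd m lv dp ds an o)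
    (hG : Gd X kd m lv dp ds θ o h₀ p₀ p₁ n t d) {g x e₁ e₂ p q r : W} (h : Tr X kd g x e₁ e₂ p q r)
    (hx : ds g x) (h1 : ds g e₁) (hlv : lv g ≤ n) :
    ∃ τ y, Lc X kd dp ds θ o h₀ p₀ p₁ t d g τ y := by
  classical
  have hp := h.e1p.2.2.1
  have hq := h.xq.2.2.1
  have hr := h.xr.2.2.1
  have hlx := hL.lev_ds g x hx
  have hlx' := hL.lev_ds g e₁ h1
  have hsum := hT.sum g x e₁ e₂ p q r h
  have tp := hT.th_pos hX hp
  have tq := hT.th_pos hX hq
  have tr := hT.th_pos hX hr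
  have nr := hG.nn x r h.xr.2.1 hr h.xr.ep (by omega)
  have np := hG.nn e₁ p h.e1p.2.1 hp h.e1p.ep (by omega)
  have hlip := hG.lip x q r h.xq.2.1 hq hr h.xq.ep h.xr.ep h.qr (by omega)
  have hlip' := hG.lip e₁ p q h.e1p.2.1 hp hq h.e1p.ep h.e1q.ep h.pq (by omega)
  have hfar := far_sum hX hT hL hG h.xq h.e1q hx h1 h.xe1 hlv
  have h2 : ¬ ds g e₂ := by
    intro h2
    obtain ⟨_, _, _, _, h3⟩ := hL.ds2 g x e₁ hx h1 h.xe1
    rcases h3 e₂ h2 with h4 | h4
    · exact h.xe2 h4.symm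
    · exact h.e12 h4.symm
  have dq0 : dp g q ≠ 0 := by
    have := hL.dp_ds h.xq hx
    omega
  have dr0 : dp g r ≠ 0 := by
    have := hL.dp_ds h.xr hx
    omega
  have dp0 : dp g p ≠ 0 := by
    have := hL.dp_ds h.e1p h1
    omega
  have lp : min 1 (t e₁ p + θ p) ≤ t e₁ p + θ p := min_le_right _ _
  have lr : min 1 (t x r + θ r) ≤ t x r + θ r := min_le_right _ _
  have Tp0 : 0 ≤ min 1 (t e₁ p + θ p) := le_min zero_le_one (by linarith)
  have Tr0 : 0 ≤ min 1 (t x r + θ r) := le_min zero_le_one (by linarith)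
  have key : |d p - d r| ≤ 1 - min 1 (t e₁ p + θ p) - min 1 (t x r + θ r) := by
    have h5 := abs_sub_le (d p) (d q) (d r)
    linarith
  have only : ∀ {e v : W}, T3 X kd g e v → ¬ ds g e → e = e₂ ∧ (v = p ∨ v = r) := by
    intro e v hv hn
    rcases h.cases hT hv with ⟨h5, _⟩ | ⟨h5, _⟩ | ⟨h5, _⟩ | ⟨h5, _⟩ | ⟨h5, h6⟩ | ⟨h5, h6⟩
    · rw [h5] at hn
      exact absurd hx hn
    · rw [h5] at hn
      exact absurd hx hn
    · rw [h5] at hn
      exact absurd h1 hn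
    · rw [h5] at hn
      exact absurd h1 hn
    · exact ⟨h5, Or.inl h6⟩
    · exact ⟨h5, Or.inr h6⟩
  refine ⟨fun _ v => if v = p then min 1 (t e₁ p + θ p) else min 1 (t x r + θ r), d, ?_, ?_, ?_, ?_, ?_, ?_⟩
  · intro e v hv hn
    rcases (only hv hn).2 with rfl | rfl
    · simp only [if_true]
      exact ⟨Tp0, min_le_left _ _⟩
    · simp only [if_neg h.pr.symm]
      exact ⟨Tr0, min_le_left _ _⟩
  · intro e u v hu hv hn hne
    rcases (only hu hn).2 with rfl | rfl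
    · rcases (only hv hn).2 with rfl | rfl
      · exact absurd rfl hne
      · simp only [if_true, if_neg h.pr.symm]
        exact key
    · rcases (only hv hn).2 with rfl | rfl
      · simp only [if_true, if_neg h.pr.symm]
        rw [abs_sub_comm]
        linarith
      · exact absurd rfl hne
  · intro e e' v hv hv' hd hn
    obtain ⟨rfl, h5⟩ := only hv hn
    rcases h5 with rfl | rfl
    · rcases h.atp hT hv' with rfl | rfl
      · simp only [if_true]
      · exact absurd hd hn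
    · simp only [if_neg h.pr.symm]
      rcases h.cases hT hv' with ⟨h5, h6⟩ | ⟨h5, h6⟩ | ⟨h5, h6⟩ | ⟨h5, h6⟩ | ⟨h5, h6⟩ | ⟨h5, h6⟩
      · exact absurd h6 h.qr.symm
      · rw [h5]
      · exact absurd h6 h.pr.symm
      · exact absurd h6 h.qr.symm
      · exact absurd h6 h.pr.symm
      · rw [h5] at hd
        exact absurd hd hn
  · intro e e' v hv hv' hne h0
    rcases h.cases hT hv with ⟨h5, h6⟩ | ⟨h5, h6⟩ | ⟨h5, h6⟩ | ⟨h5, h6⟩ | ⟨h5, h6⟩ | ⟨h5, h6⟩ <;>
    · rw [h6] at h0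
      first
        | exact absurd h0 dq0
        | exact absurd h0 dr0
        | exact absurd h0 dp0
  · intro e v hv h0
    rfl
  · intro hgo
    rw [hgo] at hx
    exact absurd hx (no_ds hX hL x)

/-- the root -/
private theorem root (hX : LX X kd m) (hT : TriX X kd m θ) (hL : Lv2 X kd m lv dp ds an o)
    (h0 : T3 X kd o h₀ p₀) (h1 : T3 X kd o h₀ p₁) (hne : p₀ ≠ p₁) :
    ∃ τ y, Lc X kd dp ds θ o h₀ p₀ p₁ t d o τ y := by
  classical
  obtain ⟨e₁, e₂, p, q, r, h⟩ := hT.tri o h₀ h0.1 h0.2.1 h0.ge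
  -- we may assume that `q = p₀` and `r = p₁`
  obtain ⟨e₁, e₂, h⟩ : ∃ e₁ e₂, Tr X kd o h₀ e₁ e₂ p p₀ p₁ := by
    rcases h.hx hT h0 with rfl | rfl
    · rcases h.hx hT h1 with rfl | rfl
      · exact absurd rfl hne
      · exact ⟨e₁, e₂, h⟩
    · rcases h.hx hT h1 with rfl | rfl
      · exact ⟨e₂, e₁, h.sw⟩
      · exact absurd rfl hne
  have hnd : ∀ e, ¬ ds o e := no_ds hX hL
  have hp := h.e1p.2.2.1
  have hsum := hT.sum o h₀ e₁ e₂ p p₀ p₁ h
  have tp := hT.th_pos hX hp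
  have tq := hT.th_pos hX h0.2.2.1
  have tr := hT.th_pos hX h1.2.2.1
  have tp' := hT.hi p hp
  have tq' := hT.hi p₀ h0.2.2.1
  have tr' := hT.hi p₁ h1.2.2.1
  refine ⟨fun e v => if e = h₀ then 0 else if e = e₁ then (if v = p then 0 else θ p₀) else
    (if v = p then θ p else θ p₁), fun v => if v = p₀ then 0 else if v = p₁ then 1 else 1 - θ p₀, ?_, ?_, ?_, ?_, ?_, ?_⟩
  · intro e v hv hn
    rcases h.cases hT hv with ⟨rfl, rfl⟩ | ⟨rfl, rfl⟩ | ⟨rfl, rfl⟩ | ⟨rfl, rfl⟩ | ⟨rfl, rfl⟩ | ⟨rfl, rfl⟩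
    · simp
    · simp
    · simp [h.xe1.symm]
    · simp only [if_neg h.xe1.symm, if_true, if_neg h.pq.symm]
      exact ⟨by linarith, by linarith⟩
    · simp only [if_neg h.xe2.symm, if_neg h.e12.symm, if_true]
      exact ⟨by linarith, by linarith⟩
    · simp only [if_neg h.xe2.symm, if_neg h.e12.symm, if_neg h.pr.symm]
      exact ⟨by linarith, by linarith⟩
  · have k1 : ∀ e u v, T3 X kd o e u → T3 X kd o e v → u ≠ v →
        (e = h₀ ∧ u = p₀ ∧ v = p₁) ∨ (e = h₀ ∧ u = p₁ ∧ v = p₀) ∨ (e = e₁ ∧ u = p ∧ v = p₀) ∨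
          (e = e₁ ∧ u = p₀ ∧ v = p) ∨ (e = e₂ ∧ u = p ∧ v = p₁) ∨ (e = e₂ ∧ u = p₁ ∧ v = p) := by
      intro e u v hu hv hnn
      rcases h.cases hT hu with ⟨rfl, rfl⟩ | ⟨rfl, rfl⟩ | ⟨rfl, rfl⟩ | ⟨rfl, rfl⟩ | ⟨rfl, rfl⟩ | ⟨rfl, rfl⟩
      · rcases h.hx hT hv with rfl | rfl
        · exact absurd rfl hnn
        · simp
      · rcases h.hx hT hv with rfl | rfl
        · simp
        · exact absurd rfl hnn
      · rcases h.h1 hT hv with rfl | rfl
        · exact absurd rfl hnn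
        · simp
      · rcases h.h1 hT hv with rfl | rfl
        · simp
        · exact absurd rfl hnn
      · rcases h.h2 hT hv with rfl | rfl
        · exact absurd rfl hnn
        · simp
      · rcases h.h2 hT hv with rfl | rfl
        · simp
        · exact absurd rfl hnn
    have a1 : |(0 : ℝ) - 1| = 1 := by norm_num
    have a2 : |(1 : ℝ) - 0| = 1 := by norm_num
    have a3 : |(1 - θ p₀) - 0| = 1 - θ p₀ := by rw [sub_zero, abs_of_nonneg (by linarith)]
    have a4 : |0 - (1 - θ p₀)| = 1 - θ p₀ := by rw [zero_sub, abs_neg, abs_of_nonneg (by linarith)]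
    have a5 : |(1 - θ p₀) - 1| = θ p₀ := by
      rw [abs_sub_comm, abs_of_nonneg (by linarith)]
      ring
    have a6 : |1 - (1 - θ p₀)| = θ p₀ := by
      rw [abs_of_nonneg (by linarith)]
      ring
    intro e u v hu hv hn hne'
    rcases k1 e u v hu hv hne' with ⟨rfl, rfl, rfl⟩ | ⟨rfl, rfl, rfl⟩ | ⟨rfl, rfl, rfl⟩ | ⟨rfl, rfl, rfl⟩ |
        ⟨rfl, rfl, rfl⟩ | ⟨rfl, rfl, rfl⟩
    · simp only [if_true, if_neg hne.symm, a1]
      norm_num
    · simp only [if_true, if_neg hne.symm, a2]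
      norm_num
    · simp only [if_true, if_neg h.xe1.symm, if_neg h.pq, if_neg h.pr, if_neg h.pq.symm, a3]
      linarith
    · simp only [if_true, if_neg h.xe1.symm, if_neg h.pq, if_neg h.pr, if_neg h.pq.symm, a4]
      linarith
    · simp only [if_true, if_neg h.xe2.symm, if_neg h.e12.symm, if_neg h.pq, if_neg h.pr, if_neg h.pr.symm,
        if_neg hne.symm, a5]
      linarith
    · simp only [if_true, if_neg h.xe2.symm, if_neg h.e12.symm, if_neg h.pq, if_neg h.pr, if_neg h.pr.symm,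
        if_neg hne.symm, a6]
      linarith
  · intro e e' v hv hv' hd hn
    exact absurd hd (hnd e')
  · intro e e' v hv hv' hne' _
    rcases h.cases hT hv with ⟨rfl, rfl⟩ | ⟨rfl, rfl⟩ | ⟨rfl, rfl⟩ | ⟨rfl, rfl⟩ | ⟨rfl, rfl⟩ | ⟨rfl, rfl⟩ <;>
    rcases h.cases hT hv' with ⟨rfl, h5⟩ | ⟨rfl, h5⟩ | ⟨rfl, h5⟩ | ⟨rfl, h5⟩ | ⟨rfl, h5⟩ | ⟨rfl, h5⟩ <;>
    first
      | exact absurd rfl hne'
      | exact absurd h5 h.pq
      | exact absurd h5 h.pr
      | exact absurd h5 h.qr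
      | exact absurd h5.symm h.pq
      | exact absurd h5.symm h.pr
      | exact absurd h5.symm h.qr
      | simp [h.xe1, h.xe2, h.e12, h.pq, h.pr, h.qr, h.xe1.symm, h.xe2.symm, h.e12.symm, h.pq.symm, h.pr.symm,
          h.qr.symm]
  · intro e v hv h0'
    exact absurd ((hL.new_p o v hv.1 hv.2.2.1 hv.gp).2 (fun e _ => hnd e)) h0'
  · intro _
    refine ⟨fun p _ => if_pos rfl, if_pos rfl, ?_⟩
    simp only [if_neg hne.symm, if_true]

/-- the angles and directions at a chamber -/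
theorem loc (hX : LX X kd m) (hT : TriX X kd m θ) (hL : Lv2 X kd m lv dp ds an o)
    (hG : Gd X kd m lv dp ds θ o h₀ p₀ p₁ n t d) (h0 : T3 X kd o h₀ p₀) (h1 : T3 X kd o h₀ p₁) (hne : p₀ ≠ p₁)
    (g : W) (hg : kd g = 0) (hlv : lv g ≤ n) : ∃ τ y, Lc X kd dp ds θ o h₀ p₀ p₁ t d g τ y := by
  by_cases hgo : g = o
  · subst hgo
    exact root hX hT hL h0 h1 hne
  · have h2 : ∃ x, ds g x := by
      by_contra h2
      push Not at h2
      exact hgo (hL.root g hg h2)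
    obtain ⟨x, hx⟩ := h2
    have hx' := hL.ds_kd g x hx
    obtain ⟨e₁, e₂, p, q, r, h⟩ := hT.tri g x hg hx'.2.1 hx'.2.2
    by_cases k1 : ds g e₁
    · exact two hX hT hL hG h hx k1 hlv
    · by_cases k2 : ds g e₂
      · exact two hX hT hL hG h.sw hx k2 hlv
      · exact one hX hT hL hG h hx k1 k2 hlv

end Pool.Agent.H75.GLV
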