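import Pool.Agent.H75.GLV.Ch

/-!
# [H75 GLV VE] two hyperedges at a point; the root has no descending hyperedge

`vtx`: hyperedges `e ≠ e'` at the point `p` which are not in a common chamber have `t e p + t e' p ≥ 2 θ p`.
`no_ds`: the root has no descending hyperedge: a chamber with the smallest level is the root.
-/

set_option autoImplicit false

namespace Pool.Agent.H75.GLV

open Pool.Agent.H54.CX Pool.Agent.H52.T2

variable {W : Type} {X : Cpx W} {kd : W → ℕ} {m : W → ℕ} {lv : W → ℕ} {dp : W → W → ℕ} {ds : W → W → Prop}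
  {an : W → W → ℝ} {θ : W → ℝ} {o h₀ p₀ p₁ : W} {n : ℕ} {t : W → W → ℝ} {d : W → ℝ}

/-- two hyperedges at a point -/
theorem vtx (hX : LX X kd m) (hT : TriX X kd m θ) (hL : Lv2 X kd m lv dp ds an o)
    (hG : Gd X kd m lv dp ds θ o h₀ p₀ p₁ n t d) {e e' p : W} (he : kd e = 1) (he' : kd e' = 1) (hp : kd p = 2)
    (h1 : X.Edge e p) (h1' : X.Edge e' p) (hne : e ≠ e') (hna : ¬ (HGr X kd p).Adj e e') (hl : lv e < n) (hl' : lv e' < n) :
    2 * θ p ≤ t e p + t e' p := by
  have hθ := hT.th_pos hX hp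
  have hhi := hT.hi p hp
  have b1 := hG.nn e p he hp h1 hl
  have b2 := hG.nn e' p he' hp h1' hl'
  by_cases c1 : t e p = 1
  · linarith
  by_cases c2 : t e' p = 1
  · linarith
  have f1 : ∀ {x : W}, Fd X kd ds x → X.Edge x p → lv x < n → t x p ≠ 1 → dp x p = 0 := by
    intro x h2 h3 h4 h5
    by_contra h6
    exact h5 (hG.fd1 x p h2 hp h3 h4 h6)
  have walk : ∀ w : (HGr X kd p).Walk e e', 2 ≤ w.length := by
    intro w
    cases w with
    | nil => exact absurd rfl hne
    | cons h w =>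
      cases w with
      | nil => exact absurd h hna
      | cons h' w =>
        rw [SimpleGraph.Walk.length_cons, SimpleGraph.Walk.length_cons]
        omega
  rcases hL.gate_ex p hp with ⟨g₀, k1, k2, k3⟩ | ⟨v, k1, k2, k3⟩
  · have nf : ∀ {x : W}, X.Edge x p → lv x < n → t x p ≠ 1 → ¬ Fd X kd ds x := fun h2 h3 h4 h5 =>
      hL.cg_hg g₀ _ p k1 hp k2 k3 h5 h2 (f1 h5 h2 h3 h4)
    obtain ⟨f, tf, ⟨w, hw⟩, h6, -⟩ := chC hX hT hL hG k1 hp k2 k3 _ e rfl he h1 (nf h1 hl c1) hl
    obtain ⟨f', tf', ⟨w', hw'⟩, h7, -⟩ := chC hX hT hL hG k1 hp k2 k3 _ e' rfl he' h1' (nf h1' hl' c2) hl'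
    have hlf : ∀ {f : W}, T3 X kd g₀ f p → lv f < n := by
      intro f tf
      have h8 := hL.lev f p (by rw [tf.2.1]) hp tf.ep
      have h9 := hL.lev e p (by rw [he]) hp h1
      have h10 : dp f p = 0 := by
        have h11 : ¬ ds g₀ f := (hL.new_p g₀ p k1 hp k2).1 k3 f tf
        have := hL.dp_asc tf h11
        omega
      omega
    have h9 := (hG.nn f p tf.2.1 hp tf.ep (hlf tf)).1
    have h10 := (hG.nn f' p tf'.2.1 hp tf'.ep (hlf tf')).1
    have e1 : t e p = t f p + (dp e p : ℝ) * θ p := by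
      rcases le_total 1 (t f p + (dp e p : ℝ) * θ p) with h | h
      · rw [min_eq_left h] at h6
        exact absurd h6 c1
      · rw [min_eq_right h] at h6
        exact h6
    have e2 : t e' p = t f' p + (dp e' p : ℝ) * θ p := by
      rcases le_total 1 (t f' p + (dp e' p : ℝ) * θ p) with h | h
      · rw [min_eq_left h] at h7
        exact absurd h7 c2
      · rw [min_eq_right h] at h7
        exact h7
    by_cases hff : f = f'
    · subst hff
      have h5 := walk (w.append w'.reverse)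
      rw [SimpleGraph.Walk.length_append, SimpleGraph.Walk.length_reverse, hw, hw'] at h5
      have h11 : (2 : ℝ) ≤ (dp e p : ℝ) + dp e' p := by exact_mod_cast h5
      rw [e1, e2]
      nlinarith
    · have h5 := walk (w.append (SimpleGraph.Walk.cons
        (show (HGr X kd p).Adj f f' from ⟨hff, g₀, tf, tf'⟩) w'.reverse))
      rw [SimpleGraph.Walk.length_append, SimpleGraph.Walk.length_cons,
        SimpleGraph.Walk.length_reverse, hw, hw'] at h5
      have h11 : (1 : ℝ) ≤ (dp e p : ℝ) + dp e' p := by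
        have : 1 ≤ dp e p + dp e' p := by omega
        exact_mod_cast this
      have h12 := hG.nw g₀ f f' p tf tf' hff k3 (by
        have h8 := hL.lev g₀ p (by rw [k1]; omega) hp k2
        have h9 := hL.lev e p (by rw [he]) hp h1
        omega)
      rw [e1, e2]
      nlinarith
  · have nf : ∀ {x : W}, X.Edge x p → lv x < n → t x p ≠ 1 → dp x p ≠ 0 → ¬ Fd X kd ds x := fun h2 h3 h4 h6 h5 =>
      h6 (f1 h5 h2 h3 h4)
    obtain ⟨⟨w, hw⟩, h6, -⟩ := chH hX hT hL hG k1 hp k2 k3 _ e rfl he h1 (nf h1 hl c1) hl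
    obtain ⟨⟨w', hw'⟩, h7, -⟩ := chH hX hT hL hG k1 hp k2 k3 _ e' rfl he' h1' (nf h1' hl' c2) hl'
    have e1 : t e p = (dp e p : ℝ) * θ p := by
      rcases le_total 1 ((dp e p : ℝ) * θ p) with h | h
      · rw [min_eq_left h] at h6
        exact absurd h6 c1
      · rw [min_eq_right h] at h6
        exact h6
    have e2 : t e' p = (dp e' p : ℝ) * θ p := by
      rcases le_total 1 ((dp e' p : ℝ) * θ p) with h | h
      · rw [min_eq_left h] at h7
        exact absurd h7 c2
      · rw [min_eq_right h] at h7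
        exact h7
    have h5 := walk (w.append w'.reverse)
    rw [SimpleGraph.Walk.length_append, SimpleGraph.Walk.length_reverse, hw, hw'] at h5
    have h11 : (2 : ℝ) ≤ (dp e p : ℝ) + dp e' p := by exact_mod_cast h5
    rw [e1, e2]
    nlinarith

/-- below every hyperedge there is a chamber -/
private theorem below (hX : LX X kd m) (hL : Lv2 X kd m lv dp ds an o) : ∀ (k : ℕ) (e : W), lv e = k → kd e = 1 →
    ∃ g, kd g = 0 ∧ lv g ≤ k := by
  intro k
  induction k using Nat.strong_induction_on with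
  | _ k ih =>
    intro e hk he
    by_cases hf : Fd X kd ds e
    · obtain ⟨P, hP, hP1, hP2, -⟩ := hL.fold e hf
      have h2 := hX.mu P hP
      have h3 := hL.lev e P (by rw [he]) hP hP1
      rcases hL.gate_ex P hP with ⟨g₀, k1, k2, k3⟩ | ⟨v, k1, k2, k3⟩
      · have h4 := hL.lev g₀ P (by rw [k1]; omega) hP k2
        exact ⟨g₀, k1, by omega⟩
      · have h4 := hL.lev v P (by rw [k1.1]) hP k2
        obtain ⟨g, hg, hg1⟩ := ih (lv v) (by omega) v rfl k1.1
        exact ⟨g, hg, by omega⟩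
    · obtain ⟨g, hg', h3, h4⟩ := Lv2.gate_of he hf
      have := hL.lev_asc g e hg' he h3 h4
      exact ⟨g, hg', by omega⟩

/-- the root has no descending hyperedge -/
theorem no_ds (hX : LX X kd m) (hL : Lv2 X kd m lv dp ds an o) (e : W) : ¬ ds o e := by
  classical
  have hex : ∃ k, ∃ g, kd g = 0 ∧ lv g = k := ⟨lv o, o, hL.o_kd, rfl⟩
  obtain ⟨g, hg, hg1⟩ := Nat.find_spec hex
  have hmin : ∀ g', kd g' = 0 → lv g ≤ lv g' := fun g' h => by
    rw [hg1]
    exact Nat.find_min' hex ⟨g', h, rfl⟩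
  have h1 : ∀ e, ¬ ds g e := by
    intro e he
    have h2 := hL.lev_ds g e he
    obtain ⟨g', h3, h4⟩ := below hX hL _ e rfl (hL.ds_kd g e he).2.1
    have := hmin g' h3
    omega
  have h5 := hL.root g hg h1
  rw [h5] at h1
  exact h1 e

end Pool.Agent.H75.GLV
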